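import Pool.Agent.Helper28.TK.StK

/-!
# Module KRH of project TK: the Fricke transform commutes with the Hecke operators, any even weight
-/

set_option autoImplicit false

open UpperHalfPlane CongruenceSubgroup
open scoped MatrixGroups

namespace Pool.Agent.Helper82.TK

open Pool.Agent.Helper28.TK Pool.Agent.Helper14.WK
open Pool.Agent.Helper14.CV (G0 StN1)

/-- Moebius action of an integral matrix. -/
private noncomputable def mob (A : Matrix (Fin 2) (Fin 2) ℤ) (z : ℂ) : ℂ :=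
  ((A 0 0 : ℂ) * z + (A 0 1 : ℂ)) / ((A 1 0 : ℂ) * z + (A 1 1 : ℂ))

/-- The denominator. -/
private noncomputable def jf (A : Matrix (Fin 2) (Fin 2) ℤ) (z : ℂ) : ℂ :=
  (A 1 0 : ℂ) * z + (A 1 1 : ℂ)

private lemma den_ne (A : Matrix (Fin 2) (Fin 2) ℤ) (hA : 0 < A.det) (z : ℂ) (hz : 0 < z.im) :
    ((A 1 0 : ℂ) * z + (A 1 1 : ℂ)) ≠ 0 := by
  intro h
  have him := congrArg Complex.im h
  have hre := congrArg Complex.re h
  simp at him hre
  have h10 : A 1 0 = 0 := by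
    rcases him with h | h
    · exact_mod_cast h
    · exact absurd h hz.ne'
  have h11 : A 1 1 = 0 := by
    rw [h10] at hre; simpa using hre
  rw [Matrix.det_fin_two, h10, h11] at hA
  simp at hA

private lemma mob_im (A : Matrix (Fin 2) (Fin 2) ℤ) (hA : 0 < A.det) (z : ℂ) (hz : 0 < z.im) :
    0 < (mob A z).im := by
  have hd := den_ne A hA z hz
  have hn : 0 < Complex.normSq ((A 1 0 : ℂ) * z + (A 1 1 : ℂ)) := Complex.normSq_pos.mpr hd
  have hdet : (0 : ℝ) < (A 0 0 : ℝ) * A 1 1 - A 0 1 * A 1 0 := by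
    rw [Matrix.det_fin_two] at hA
    exact_mod_cast hA
  have : (mob A z).im = z.im * ((A 0 0 : ℝ) * A 1 1 - A 0 1 * A 1 0) /
      Complex.normSq ((A 1 0 : ℂ) * z + (A 1 1 : ℂ)) := by
    unfold mob
    rw [Complex.div_im]
    simp only [Complex.add_im, Complex.mul_im, Complex.intCast_re, Complex.intCast_im,
      Complex.add_re, Complex.mul_re, zero_mul, sub_zero, add_zero]
    ring
  rw [this]
  positivity

private lemma mob_mul (A B : Matrix (Fin 2) (Fin 2) ℤ) (z : ℂ)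
    (h : ((B 1 0 : ℂ) * z + (B 1 1 : ℂ)) ≠ 0) : mob (A * B) z = mob A (mob B z) := by
  unfold mob
  simp only [Matrix.mul_apply, Fin.sum_univ_two]
  push_cast
  have e1 : (A 0 0 : ℂ) * (((B 0 0 : ℂ) * z + (B 0 1 : ℂ)) / ((B 1 0 : ℂ) * z + (B 1 1 : ℂ))) +
      (A 0 1 : ℂ) = ((A 0 0 : ℂ) * ((B 0 0 : ℂ) * z + (B 0 1 : ℂ)) +
        (A 0 1 : ℂ) * ((B 1 0 : ℂ) * z + (B 1 1 : ℂ))) / ((B 1 0 : ℂ) * z + (B 1 1 : ℂ)) := by
    rw [eq_div_iff h, add_mul, mul_assoc, div_mul_cancel₀ _ h]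
  have e2 : (A 1 0 : ℂ) * (((B 0 0 : ℂ) * z + (B 0 1 : ℂ)) / ((B 1 0 : ℂ) * z + (B 1 1 : ℂ))) +
      (A 1 1 : ℂ) = ((A 1 0 : ℂ) * ((B 0 0 : ℂ) * z + (B 0 1 : ℂ)) +
        (A 1 1 : ℂ) * ((B 1 0 : ℂ) * z + (B 1 1 : ℂ))) / ((B 1 0 : ℂ) * z + (B 1 1 : ℂ)) := by
    rw [eq_div_iff h, add_mul, mul_assoc, div_mul_cancel₀ _ h]
  rw [e1, e2, div_div_div_cancel_right₀ h]
  congr 1 <;> ring

private lemma jf_mul (A B : Matrix (Fin 2) (Fin 2) ℤ) (z : ℂ)
    (h : ((B 1 0 : ℂ) * z + (B 1 1 : ℂ)) ≠ 0) : jf (A * B) z = jf A (mob B z) * jf B z := by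
  unfold mob jf
  simp only [Matrix.mul_apply, Fin.sum_univ_two]
  push_cast
  field_simp
  ring

/-- the standard family of representatives -/
private def st (p : ℕ) (P : Fin (p + 1)) : Matrix (Fin 2) (Fin 2) ℤ :=
  if (P : ℕ) < p then !![1, ((P : ℕ) : ℤ); 0, (p : ℤ)] else !![(p : ℤ), 0; 0, 1]

private lemma st_det (p : ℕ) (P : Fin (p + 1)) : (st p P).det = p := by
  unfold st
  split_ifs <;> simp [Matrix.det_fin_two]

/-- the operator of weight `k = 2A + 2` and determinant `l` -/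
private noncomputable def sl (l A : ℕ) (F : ℂ → ℂ) (δ : Matrix (Fin 2) (Fin 2) ℤ) (z : ℂ) : ℂ :=
  (l : ℂ) ^ (2 * A + 1) * (jf δ z ^ (2 * A + 2))⁻¹ * F (mob δ z)

private lemma st_sum (l A : ℕ) (hl : 0 < l) (F : ℂ → ℂ) (z : ℂ) :
    ∑ P : Fin (l + 1), sl l A F (st l P) z =
      (l : ℂ) ^ ((2 * A + 2 : ℤ) - 1) * F (l * z) +
        (l : ℂ)⁻¹ * ∑ j ∈ Finset.range l, F ((z + j) / l) := by
  have hl0 : (l : ℂ) ≠ 0 := by exact_mod_cast hl.ne'
  have hz : (l : ℂ) ^ ((2 * A + 2 : ℤ) - 1) = (l : ℂ) ^ (2 * A + 1) := by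
    have : ((2 * A + 2 : ℤ) - 1) = ((2 * A + 1 : ℕ) : ℤ) := by push_cast; ring
    rw [this, zpow_natCast]
  rw [Fin.sum_univ_castSucc, add_comm, hz]
  congr 1
  · simp [st, mob, sl, jf]
  · rw [← Fin.sum_univ_eq_sum_range (fun j : ℕ => F ((z + j) / l)) l, Finset.mul_sum]
    refine Finset.sum_congr rfl fun j _ => ?_
    have : ((j : Fin l) : ℕ) < l := j.2
    simp only [st, mob, sl, jf, Fin.val_castSucc, this, if_true]
    simp
    left
    field_simp
    ring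

/-- The Hecke relation for an arbitrary family of representatives. -/
private lemma fam (h1 : SKH1) (hm : SKMod) (hN1 : Pool.Agent.Helper14.CV.StN1) (N : ℕ)
    (hN : NeZero N) (A : ℕ) (f : CuspForm (G0 N) (2 * A + 2)) (l : ℕ) (lam : ℂ) (hl : l.Prime)
    (hlN : ¬ l ∣ N) (hf : HeckeEigK f l lam) (δ : Fin (l + 1) → Matrix (Fin 2) (Fin 2) ℤ)
    (hdet : ∀ P, (δ P).det = l) (hlow : ∀ P, (N : ℤ) ∣ δ P 1 0)
    (hdis : ∀ P P', P ≠ P' → ¬ ∀ i j, (l : ℤ) ∣ (δ P * (δ P').adjugate) i j)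
    (z : ℂ) (hz : 0 < z.im) : ∑ P : Fin (l + 1), sl l A (fzK f) (δ P) z = lam * fzK f z := by
  obtain ⟨π, hπ⟩ := hN1 N l hl hlN δ hdet hlow hdis
  have hstpos : ∀ P, 0 < (st l P).det := by
    intro P; rw [st_det]; exact_mod_cast hl.pos
  have e1 : ∀ P, sl l A (fzK f) (δ P) z = sl l A (fzK f) (st l (π P)) z := by
    intro P
    obtain ⟨γ, hγdet, hγlow, hγ⟩ := hπ P
    have hγ' : δ P = γ * st l (π P) := hγ
    have hden := den_ne _ (hstpos (π P)) z hz
    have him := mob_im _ (hstpos (π P)) z hz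
    have hd := hγdet
    rw [Matrix.det_fin_two] at hd
    have hmod := hm N hN A f (γ 0 0) (γ 0 1) (γ 1 0) (γ 1 1) hd hγlow _ him
    have hγden := den_ne γ (by rw [hγdet]; norm_num) _ him
    unfold sl
    rw [hγ', mob_mul _ _ _ hden, jf_mul _ _ _ hden]
    have hmod' : fzK f (mob γ (mob (st l (π P)) z)) =
        jf γ (mob (st l (π P)) z) ^ (2 * A + 2) * fzK f (mob (st l (π P)) z) := hmod
    rw [hmod']
    have hj : jf γ (mob (st l (π P)) z) ≠ 0 := hγden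
    have hj2 : jf (st l (π P)) z ≠ 0 := hden
    rw [mul_pow]
    field_simp
  calc ∑ P : Fin (l + 1), sl l A (fzK f) (δ P) z
      = ∑ P : Fin (l + 1), sl l A (fzK f) (st l (π P)) z :=
        Finset.sum_congr rfl fun P _ => e1 P
    _ = ∑ P : Fin (l + 1), sl l A (fzK f) (st l P) z :=
        Equiv.sum_comp π (fun P => sl l A (fzK f) (st l P) z)
    _ = lam * fzK f z := by
        rw [st_sum l A hl.pos]
        have := (h1 N hN (2 * A + 2) f l lam hl.pos).1 hf 1 isCoprime_one_left z hz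
        simpa using this

/-- the Fricke matrix -/
private def fw (N : ℕ) : Matrix (Fin 2) (Fin 2) ℤ := !![0, -1; (N : ℤ), 0]

/-- the conjugated family -/
private def cj (N p : ℕ) (P : Fin (p + 1)) : Matrix (Fin 2) (Fin 2) ℤ :=
  if (P : ℕ) < p then !![(p : ℤ), 0; -((N : ℤ) * ((P : ℕ) : ℤ)), 1] else !![1, 0; 0, (p : ℤ)]

private lemma cj_det (N p : ℕ) (P : Fin (p + 1)) : (cj N p P).det = p := by
  unfold cj
  split_ifs <;> simp [Matrix.det_fin_two]

private lemma cj_low (N p : ℕ) (P : Fin (p + 1)) : (N : ℤ) ∣ cj N p P 1 0 := by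
  unfold cj
  split_ifs <;> simp

private lemma fw_st (N p : ℕ) (P : Fin (p + 1)) : fw N * st p P = cj N p P * fw N := by
  unfold fw st cj
  split_ifs
  · ext i j
    fin_cases i <;> fin_cases j <;> simp [Matrix.mul_apply, Fin.sum_univ_two]
  · ext i j
    fin_cases i <;> fin_cases j <;> simp [Matrix.mul_apply, Fin.sum_univ_two]
    ring

private lemma cj_distinct (N p : ℕ) (hp : p.Prime) (hpN : ¬ p ∣ N) (P P' : Fin (p + 1))
    (hne : P ≠ P') (h : ∀ i j, (p : ℤ) ∣ (cj N p P * (cj N p P').adjugate) i j) : False := by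
  have hp1 : ¬ (p : ℤ) ∣ 1 := by
    intro hh
    have := Int.natAbs_dvd_natAbs.mpr hh
    simp at this
    exact hp.one_lt.ne' this
  unfold cj at h
  split_ifs at h with h1 h2 h2
  · have h10 := h 1 0
    rw [Matrix.adjugate_fin_two_of] at h10
    simp only [Matrix.mul_apply, Fin.sum_univ_two, Matrix.of_apply, Matrix.cons_val', Matrix.cons_val_zero,
      Matrix.cons_val_one, Matrix.cons_val_fin_one] at h10
    have h3 : (p : ℤ) ∣ (N : ℤ) * (((P' : ℕ) : ℤ) - ((P : ℕ) : ℤ)) := by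
      have e : (N : ℤ) * (((P' : ℕ) : ℤ) - ((P : ℕ) : ℤ)) =
        -((N : ℤ) * ((P : ℕ) : ℤ)) * 1 + 1 * -(-((N : ℤ) * ((P' : ℕ) : ℤ))) := by ring
      rw [e]; exact h10
    have h4 : (p : ℤ) ∣ ((P' : ℕ) : ℤ) - ((P : ℕ) : ℤ) := by
      rcases (Nat.prime_iff_prime_int.mp hp).dvd_or_dvd h3 with h5 | h5
      · exact absurd (Int.natCast_dvd_natCast.mp h5) hpN
      · exact h5
    have h6 : (P : ℕ) ≡ (P' : ℕ) [MOD p] := (Int.natCast_modEq_iff).mp ((Int.modEq_iff_dvd).mpr h4)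
    have h7 : (P : ℕ) = (P' : ℕ) := Nat.ModEq.eq_of_lt_of_lt h6 h1 h2
    exact hne (Fin.ext h7)
  · have h11 := h 1 1
    rw [Matrix.adjugate_fin_two_of] at h11
    simp [Matrix.mul_apply, Fin.sum_univ_two] at h11
    exact hp1 h11
  · have h00 := h 0 0
    rw [Matrix.adjugate_fin_two_of] at h00
    simp [Matrix.mul_apply, Fin.sum_univ_two] at h00
    exact hp1 h00
  · have h8 : (P : ℕ) = p := by have := P.2; omega
    have h9 : (P' : ℕ) = p := by have := P'.2; omega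
    exact hne (Fin.ext (h8.trans h9.symm))

theorem hKRH : StKRH := by
  intro h1 hm hn N hN A f g l lam hl hlN hFr hf
  have hN0 : N ≠ 0 := hN.out
  have hNc : (N : ℂ) ≠ 0 := by exact_mod_cast hN0
  have fwdet : 0 < (fw N).det := by
    simp only [fw, Matrix.det_fin_two_of]
    have : (0 : ℤ) < N := by exact_mod_cast Nat.pos_of_ne_zero hN0
    linarith
  have mobfw : ∀ z : ℂ, mob (fw N) z = -1 / (N * z) := by
    intro z; simp [mob, fw]
  have jffw : ∀ z : ℂ, jf (fw N) z = N * z := by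
    intro z; simp [jf, fw]
  have hstpos : ∀ P, 0 < (st l P).det := by
    intro P; rw [st_det]; exact_mod_cast hl.pos
  have hg' : ∀ z : ℂ, 0 < z.im → fzK g z =
      (-1) ^ (A + 1) * (N : ℂ) ^ (A + 1) * ((jf (fw N) z ^ (2 * A + 2))⁻¹ * fzK f (mob (fw N) z)) := by
    intro z hz
    have hz0 : z ≠ 0 := by
      intro h; rw [h] at hz; simp at hz
    rw [hFr z hz, mobfw, jffw]
    have e : ((N : ℂ) * z) ^ (2 * A + 2) = (N : ℂ) ^ (A + 1) * ((N : ℂ) ^ (A + 1) * z ^ (2 * A + 2)) := by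
      rw [mul_pow]; ring
    rw [e, mul_inv ((N : ℂ) ^ (A + 1))]
    have hNp : (N : ℂ) ^ (A + 1) ≠ 0 := pow_ne_zero _ hNc
    field_simp
  refine (h1 N hN (2 * A + 2) g l lam hl.pos).2 ?_
  intro z hz
  rw [← st_sum l A hl.pos]
  have hwim : 0 < (mob (fw N) z).im := mob_im (fw N) fwdet z hz
  have hwden := den_ne (fw N) fwdet z hz
  have hfam := fam h1 hm hn N hN A f l lam hl hlN hf (cj N l) (cj_det N l) (cj_low N l)
    (fun P P' hne hall => cj_distinct N l hl hlN P P' hne hall) _ hwim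
  have e4 : ∀ P, sl l A (fzK g) (st l P) z =
      (-1) ^ (A + 1) * (N : ℂ) ^ (A + 1) * (jf (fw N) z ^ (2 * A + 2))⁻¹ *
        sl l A (fzK f) (cj N l P) (mob (fw N) z) := by
    intro P
    have hden := den_ne _ (hstpos P) z hz
    have him := mob_im _ (hstpos P) z hz
    have a1 : fw N * st l P = cj N l P * fw N := fw_st N l P
    have a2 : mob (fw N) (mob (st l P) z) = mob (cj N l P) (mob (fw N) z) := by
      rw [← mob_mul _ _ z hden, a1, mob_mul _ _ z hwden]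
    have a3 : jf (fw N) (mob (st l P) z) * jf (st l P) z = jf (cj N l P) (mob (fw N) z) * jf (fw N) z := by
      rw [← jf_mul _ _ z hden, a1, jf_mul _ _ z hwden]
    unfold sl
    rw [hg' _ him, a2]
    have a4 : (jf (st l P) z ^ (2 * A + 2))⁻¹ * (jf (fw N) (mob (st l P) z) ^ (2 * A + 2))⁻¹ =
        (jf (fw N) z ^ (2 * A + 2))⁻¹ * (jf (cj N l P) (mob (fw N) z) ^ (2 * A + 2))⁻¹ := by
      rw [← mul_inv, ← mul_inv, ← mul_pow, ← mul_pow]
      congr 2
      linear_combination a3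
    linear_combination (exp := 1) ((l : ℂ) ^ (2 * A + 1) * ((-1) ^ (A + 1) * (N : ℂ) ^ (A + 1)) *
      fzK f (mob (cj N l P) (mob (fw N) z))) * a4
  rw [Finset.sum_congr rfl fun P _ => e4 P, ← Finset.mul_sum, hfam, hg' z hz]
  ring

end Pool.Agent.Helper82.TK
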